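import Mathlib
import Pool.Agent.TH119.UX.Ultra

/-!
# Separation of irreducible representations, and a uniform bound for their number
-/

set_option autoImplicit false
set_option linter.unusedSectionVars false

namespace Pool.Agent.TH119.UC

open Matrix Polynomial
open Pool.Agent.TH119.GO (SubQ TT TT_mul TT_apply Irr)
open Pool.Agent.TH119.OP (sp mem_sp SS)
open Pool.Agent.TH119.PP (sp_top)
open Pool.Agent.TH119.UF (subQ_iff)

variable {k : Type} [Field k] {G : Type} [Group G] {n t : ℕ}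

/-- Isomorphic representations. -/
def Iso (ρ ρ' : G →* GL (Fin n) k) : Prop :=
  ∃ T : (Fin n → k) ≃ₗ[k] (Fin n → k), ∀ g v,
    T ((ρ g : Matrix (Fin n) (Fin n) k).mulVec v) = (ρ' g : Matrix (Fin n) (Fin n) k).mulVec (T v)

/-- The tuple of representations. -/
noncomputable def tup (ρ : Fin t → (G →* GL (Fin n) k)) : G →* (Fin t → Matrix (Fin n) (Fin n) k) where
  toFun g := fun s => (ρ s g : Matrix (Fin n) (Fin n) k)
  map_one' := by
    funext s
    rw [map_one, Units.val_one]
    rfl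
  map_mul' g h := by
    funext s
    rw [map_mul, Units.val_mul]
    rfl

/-- The algebra generated by the tuples. -/
noncomputable def BB (ρ : Fin t → (G →* GL (Fin n) k)) :
    Subalgebra k (Fin t → Matrix (Fin n) (Fin n) k) :=
  Algebra.adjoin k (MonoidHom.mrange (tup ρ) : Set (Fin t → Matrix (Fin n) (Fin n) k))

theorem tup_mem (ρ : Fin t → (G →* GL (Fin n) k)) (g : G) : tup ρ g ∈ BB ρ :=
  Algebra.subset_adjoin ⟨g, rfl⟩

theorem BB_span (ρ : Fin t → (G →* GL (Fin n) k)) (x : Fin t → Matrix (Fin n) (Fin n) k)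
    (hx : x ∈ BB ρ) : x ∈ Submodule.span k (Set.range (tup ρ)) := by
  have h1 : x ∈ Subalgebra.toSubmodule (BB ρ) := hx
  unfold BB at h1
  rw [Algebra.adjoin_eq_span, Submonoid.closure_eq, MonoidHom.coe_mrange] at h1
  exact h1

theorem hit (ρ : Fin t → (G →* GL (Fin n) k)) (s : Fin t) (hs : sp (ρ s) = ⊤)
    (X : Matrix (Fin n) (Fin n) k) : ∃ x ∈ BB ρ, x s = X := by
  have hX : X ∈ sp (ρ s) := by rw [hs]; trivial
  unfold sp at hX
  induction hX using Submodule.span_induction with
  | mem X hX =>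
    obtain ⟨g, rfl⟩ := hX
    exact ⟨tup ρ g, tup_mem ρ g, rfl⟩
  | zero => exact ⟨0, (BB ρ).zero_mem, rfl⟩
  | add a b _ _ ha hb =>
    obtain ⟨x, hx, rfl⟩ := ha
    obtain ⟨y, hy, rfl⟩ := hb
    exact ⟨x + y, (BB ρ).add_mem hx hy, rfl⟩
  | smul c a _ ha =>
    obtain ⟨x, hx, rfl⟩ := ha
    exact ⟨c • x, (BB ρ).smul_mem hx c, rfl⟩

/-- Separation of two representations. -/
theorem sep (ρ : Fin t → (G →* GL (Fin n) k)) (hsp : ∀ s, sp (ρ s) = ⊤) (a b : Fin t)
    (hiso : ¬ Iso (ρ b) (ρ a)) : ∃ x ∈ BB ρ, x a = 1 ∧ x b = 0 := by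
  classical
  by_contra hno
  push Not at hno
  have hker : ∀ x ∈ BB ρ, x b = 0 → x a = 0 := by
    intro x hx hxb
    by_contra hxa
    obtain ⟨p, q, hpq⟩ : ∃ p q, x a p q ≠ 0 := by
      by_contra h
      push Not at h
      exact hxa (Matrix.ext h)
    choose y hy hya using fun i : Fin n => hit ρ a (hsp a) (Matrix.single i p 1)
    choose z hz hza using fun i : Fin n => hit ρ a (hsp a) (Matrix.single q i ((x a p q)⁻¹))
    have hw : ∑ i, y i * x * z i ∈ BB ρ :=
      (BB ρ).sum_mem fun i _ => (BB ρ).mul_mem ((BB ρ).mul_mem (hy i) hx) (hz i)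
    refine hno _ hw ?_ ?_
    · rw [Finset.sum_apply]
      have h1 : ∀ i, (y i * x * z i) a = Matrix.single i i 1 := by
        intro i
        rw [Pi.mul_apply, Pi.mul_apply, hya, hza]
        rw [Matrix.single_mul_mul_single, one_mul, mul_inv_cancel₀ hpq]
      simp only [h1]
      ext i j
      rw [Matrix.sum_apply]
      simp only [Matrix.single_apply, Matrix.one_apply]
      by_cases hij : i = j
      · subst hij
        simp
      · rw [if_neg hij]
        refine Finset.sum_eq_zero fun l _ => ?_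
        rw [if_neg]
        rintro ⟨rfl, h⟩
        exact hij h
    · rw [Finset.sum_apply]
      refine Finset.sum_eq_zero fun i _ => ?_
      rw [Pi.mul_apply, Pi.mul_apply, hxb, mul_zero, zero_mul]
  have huniq : ∀ x ∈ BB ρ, ∀ y ∈ BB ρ, x b = y b → x a = y a := by
    intro x hx y hy hxy
    have := hker (x - y) ((BB ρ).sub_mem hx hy) (by rw [Pi.sub_apply, hxy, sub_self])
    rw [Pi.sub_apply] at this
    exact sub_eq_zero.1 this
  choose e he heb using hit ρ b (hsp b)
  have hα : ∀ x ∈ BB ρ, e (x b) a = x a := fun x hx => huniq _ (he _) _ hx (heb _)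
  let α : Matrix (Fin n) (Fin n) k →ₐ[k] Matrix (Fin n) (Fin n) k :=
    { toFun := fun X => e X a
      map_one' := by
        have := hα 1 (BB ρ).one_mem
        exact this
      map_mul' := fun X Y => by
        refine huniq _ (he _) _ ((BB ρ).mul_mem (he X) (he Y)) ?_
        rw [heb, Pi.mul_apply, heb, heb]
      map_zero' := by
        have := hα 0 (BB ρ).zero_mem
        exact this
      map_add' := fun X Y => by
        refine huniq _ (he _) _ ((BB ρ).add_mem (he X) (he Y)) ?_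
        rw [heb, Pi.add_apply, heb, heb]
      commutes' := fun c => by
        have := hα (algebraMap k _ c) ((BB ρ).algebraMap_mem c)
        exact this }
  have hsurj : Function.Surjective α := by
    intro X
    obtain ⟨x, hx, rfl⟩ := hit ρ a (hsp a) X
    exact ⟨x b, hα x hx⟩
  have hinj : Function.Injective α :=
    (LinearMap.injective_iff_surjective (f := α.toLinearMap)).2 hsurj
  let β : Matrix (Fin n) (Fin n) k ≃ₐ[k] Matrix (Fin n) (Fin n) k :=
    AlgEquiv.ofBijective α ⟨hinj, hsurj⟩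
  obtain ⟨T, hT⟩ := AlgEquiv.eq_linearEquivConjAlgEquiv
    ((Matrix.toLinAlgEquiv'.symm.trans β).trans Matrix.toLinAlgEquiv' :
      Module.End k (Fin n → k) ≃ₐ[k] Module.End k (Fin n → k))
  apply hiso
  refine ⟨T, fun g v => ?_⟩
  have h1 : β (ρ b g : Matrix (Fin n) (Fin n) k) = (ρ a g : Matrix (Fin n) (Fin n) k) :=
    hα _ (tup_mem ρ g)
  have h2 := AlgEquiv.congr_fun hT (Matrix.toLinAlgEquiv' (ρ b g : Matrix (Fin n) (Fin n) k))
  rw [AlgEquiv.trans_apply, AlgEquiv.trans_apply, AlgEquiv.symm_apply_apply, h1] at h2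
  have h3 := LinearMap.congr_fun h2 (T v)
  rw [Matrix.toLinAlgEquiv'_apply] at h3
  rw [h3]
  simp

/-- Separation of one representation from the others. -/
theorem sep_all (ρ : Fin t → (G →* GL (Fin n) k)) (hsp : ∀ s, sp (ρ s) = ⊤)
    (hiso : ∀ s s', s ≠ s' → ¬ Iso (ρ s) (ρ s')) (a : Fin t) (F : Finset (Fin t)) (ha : a ∉ F) :
    ∃ x ∈ BB ρ, x a = 1 ∧ ∀ s ∈ F, x s = 0 := by
  classical
  induction F using Finset.induction_on with
  | empty => exact ⟨1, (BB ρ).one_mem, rfl, fun s hs => absurd hs (Finset.notMem_empty s)⟩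
  | insert b F hb ih =>
    rw [Finset.mem_insert, not_or] at ha
    obtain ⟨x, hx, hxa, hxF⟩ := ih ha.2
    obtain ⟨y, hy, hya, hyb⟩ := sep ρ hsp a b (hiso b a fun h => ha.1 h.symm)
    refine ⟨x * y, (BB ρ).mul_mem hx hy, ?_, fun s hs => ?_⟩
    · rw [Pi.mul_apply, hxa, hya, one_mul]
    · rw [Pi.mul_apply]
      rcases Finset.mem_insert.1 hs with rfl | hs
      · rw [hyb, mul_zero]
      · rw [hxF s hs, zero_mul]

/-- The characters of pairwise non-isomorphic representations are linearly independent. -/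
theorem linInd (hn : (n : k) ≠ 0) (ρ : Fin t → (G →* GL (Fin n) k)) (hsp : ∀ s, sp (ρ s) = ⊤)
    (hiso : ∀ s s', s ≠ s' → ¬ Iso (ρ s) (ρ s')) :
    LinearIndependent k fun s => fun g : G => (ρ s g : Matrix (Fin n) (Fin n) k).trace := by
  classical
  rw [Fintype.linearIndependent_iff]
  intro c hc a
  have h0 : ∀ x ∈ Submodule.span k (Set.range (tup ρ)), ∑ s, c s * (x s).trace = 0 := by
    intro x hx
    induction hx using Submodule.span_induction with
    | mem x hx =>
      obtain ⟨g, rfl⟩ := hx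
      have h2 := congrFun hc g
      rw [Finset.sum_apply] at h2
      exact h2
    | zero => simp
    | add x y _ _ hx2 hy2 =>
      simp only [Pi.add_apply, Matrix.trace_add, mul_add, Finset.sum_add_distrib]
      rw [hx2, hy2, add_zero]
    | smul r x _ hx2 =>
      have h3 : ∑ s, c s * ((r • x) s).trace = r * ∑ s, c s * (x s).trace := by
        rw [Finset.mul_sum]
        refine Finset.sum_congr rfl fun s _ => ?_
        rw [Pi.smul_apply, Matrix.trace_smul, smul_eq_mul]
        ring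
      rw [h3, hx2, mul_zero]
  have h1 : ∀ x ∈ BB ρ, ∑ s, c s * (x s).trace = 0 := fun x hx => h0 x (BB_span ρ x hx)
  obtain ⟨x, hx, hxa, hxF⟩ := sep_all ρ hsp hiso a (Finset.univ.erase a)
    (Finset.notMem_erase a _)
  have h2 := h1 x hx
  rw [Finset.sum_eq_single a] at h2
  · rw [hxa, Matrix.trace_one, Fintype.card_fin] at h2
    exact (mul_eq_zero.1 h2).resolve_right hn
  · intro s _ hs
    rw [hxF s (Finset.mem_erase.2 ⟨hs, Finset.mem_univ _⟩), Matrix.trace_zero, mul_zero]
  · intro h; exact absurd (Finset.mem_univ _) h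

/-- The index set of the matrix coefficients of the tensor constructions. -/
abbrev Idx (m B : ℕ) : Type :=
  Σ x : Fin (B + 1) × Fin (B + 1), (((Fin x.1 → Fin m) × (Fin x.2 → Fin m)) ×
    ((Fin x.1 → Fin m) × (Fin x.2 → Fin m)))

theorem count {m : ℕ} (hn : (n : k) ≠ 0) (W : G →* GL (Fin m) k) (B : ℕ)
    (ρ : Fin t → (G →* GL (Fin n) k)) (hsp : ∀ s, sp (ρ s) = ⊤)
    (hiso : ∀ s s', s ≠ s' → ¬ Iso (ρ s) (ρ s'))
    (hsub : ∀ s, ∃ a b, a ≤ B ∧ b ≤ B ∧ SubQ (ρ s) (TT W a b)) :
    t ≤ Fintype.card (Idx m B) := by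
  classical
  let f : Idx m B → (G → k) := fun x g => TT W x.1.1 x.1.2 g x.2.1 x.2.2
  have hmem : ∀ s, (fun g : G => (ρ s g : Matrix (Fin n) (Fin n) k).trace) ∈
      Submodule.span k (Set.range f) := by
    intro s
    obtain ⟨a, b, ha, hb, hs⟩ := hsub s
    obtain ⟨P, S, hPS⟩ := (subQ_iff (TT_mul W a b)).1 hs
    have h1 : (fun g : G => (ρ s g : Matrix (Fin n) (Fin n) k).trace) =
        ∑ I, ∑ J, (S * P) J I • fun g => TT W a b g I J := by
      funext g
      rw [Finset.sum_apply, hPS, Matrix.trace_mul_comm, ← Matrix.mul_assoc, Matrix.trace_mul_comm,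
        Matrix.trace]
      refine Finset.sum_congr rfl fun I _ => ?_
      rw [Matrix.diag_apply, Matrix.mul_apply, Finset.sum_apply]
      refine Finset.sum_congr rfl fun J _ => ?_
      rw [Pi.smul_apply, smul_eq_mul, mul_comm]
    rw [h1]
    refine Submodule.sum_mem _ fun I _ => Submodule.sum_mem _ fun J _ =>
      Submodule.smul_mem _ _ (Submodule.subset_span ?_)
    exact ⟨⟨(⟨a, by omega⟩, ⟨b, by omega⟩), (I, J)⟩, rfl⟩
  have h2 : LinearIndependent k fun s =>
      (⟨_, hmem s⟩ : Submodule.span k (Set.range f)) :=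
    LinearIndependent.of_comp (Submodule.subtype _) (linInd hn ρ hsp hiso)
  have : Module.Finite k (Submodule.span k (Set.range f)) :=
    Module.Finite.span_of_finite k (Set.finite_range f)
  have h3 := h2.fintype_card_le_finrank
  rw [Fintype.card_fin] at h3
  exact h3.trans (finrank_range_le_card f)

/-- **The uniform bound.** -/
theorem bound (n m : ℕ) (hn : 0 < n) : ∃ C : ℕ,
    ∀ (F : Type) [Field F] [IsAlgClosed F] (_ : ∀ N : ℕ, N ≠ 0 → N ≤ C → (N : F) ≠ 0)
      (H : Type) [Group H] (W : H →* GL (Fin m) F) (t : ℕ) (ρ : Fin t → (H →* GL (Fin n) F)),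
      (∀ s, Irr (ρ s)) → (∀ s s', s ≠ s' → ¬ Iso (ρ s) (ρ s')) →
      (∀ s g, (ρ s g : Matrix (Fin n) (Fin n) F).charpoly ∣
        (W g : Matrix (Fin m) (Fin m) F).charpoly ^ n) → t ≤ C := by
  obtain ⟨B, hB⟩ := Pool.Agent.TH119.UX.uniform n m n hn
  refine ⟨B + n + Fintype.card (Idx m B), fun F _ _ hch H _ W t ρ hirr hiso hdvd => ?_⟩
  refine (count (hch n hn.ne' (by omega)) W B ρ (fun s => sp_top hn _ (hirr s)) hiso
    fun s => ?_).trans (by omega)
  exact hB F (fun N h1 h2 => hch N h1 (by omega)) H (ρ s) W (hirr s) (hdvd s)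

end Pool.Agent.TH119.UC
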