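import Mathlib
import Pool.Agent.TH119.UC.Sep
import Pool.Agent.TH119.UX.Main

/-!
# The uniform bound for representations of Galois groups
-/

set_option autoImplicit false
set_option linter.unusedSectionVars false

namespace Pool.Agent.TH119.UC

open NumberField IsDedekindDomain Polynomial Matrix Topology Filter
open Pool.Agent.W401.Cheb (GK IsFrob)
open Pool.Agent.TH119.GO (SubQ TT Irr Thin)

/-- Inclusion of the roots in terms of divisibility. -/
theorem dvd_of_isRoot {k : Type} [Field k] [IsAlgClosed k] {n : ℕ} (p q : k[X]) (hp : p.Monic)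
    (hn : p.natDegree = n) (h : ∀ x : k, p.IsRoot x → q.IsRoot x) : p ∣ q ^ n := by
  classical
  have hs : p.Splits := IsAlgClosed.splits _
  have hcard : Multiset.card p.roots = n := by
    rw [← hn]
    exact hs.natDegree_eq_card_roots.symm
  have h1 := hs.eq_prod_roots_of_monic hp
  have h2 : (Multiset.map (fun a => X - C a) p.roots).prod ∣
      (Multiset.map (fun _ => q) p.roots).prod := by
    refine Multiset.prod_dvd_prod_of_dvd _ _ fun a ha => ?_
    rw [dvd_iff_isRoot]
    exact h a (mem_roots'.1 ha).2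
  rw [Multiset.map_const', Multiset.prod_replicate, hcard] at h2
  rwa [h1]

theorem main (n m : ℕ) (hn : 0 < n) : ∃ C : ℕ,
    ∀ (K : Type) [Field K] [NumberField K]
      (k : Type) [Field k] [IsAlgClosed k] [TopologicalSpace k] [IsTopologicalRing k]
      [T2Space k] (_ : ∀ N : ℕ, N ≠ 0 → N ≤ C → (N : k) ≠ 0)
      (W : GK K →* GL (Fin m) k) (_ : Continuous fun g => (W g : Matrix (Fin m) (Fin m) k))
      (t : ℕ) (ρ : Fin t → (GK K →* GL (Fin n) k)),
      (∀ s, Continuous fun g => (ρ s g : Matrix (Fin n) (Fin n) k)) →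
      (∀ s, Irr (ρ s)) → (∀ s s', s ≠ s' → ¬ Iso (ρ s) (ρ s')) →
      (∀ s, ∃ S : Set (HeightOneSpectrum (𝓞 K)), Thin S ∧ ∀ v ∉ S, ∀ σ, IsFrob v σ →
        ∀ x : k, (ρ s σ : Matrix (Fin n) (Fin n) k).charpoly.IsRoot x →
          (W σ : Matrix (Fin m) (Fin m) k).charpoly.IsRoot x) → t ≤ C := by
  obtain ⟨C, hC⟩ := bound n m hn
  refine ⟨C, fun K _ _ k _ _ _ _ _ hch W hW t ρ hρ hirr hiso heig => ?_⟩
  refine hC k hch (GK K) W t ρ hirr hiso fun s g => ?_
  obtain ⟨S, hS, h⟩ := heig s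
  refine Pool.Agent.TH119.UX.dvd_pow_of_frob n (ρ s) (hρ s) W hW S hS ?_ g
  intro v hv τ hτ
  refine dvd_of_isRoot _ _ (Matrix.charpoly_monic _) ?_ (h v hv τ hτ)
  rw [Matrix.charpoly_natDegree_eq_dim, Fintype.card_fin]

end Pool.Agent.TH119.UC
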